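import Pool.Agent.H.MP_4814b8_lc.D

set_option autoImplicit false

namespace Pool.Agent.Results.MP_4814b8_lc.Gap

open Pool.Agent.H.MP_369bda_lc Pool.Agent.H.MP_4814b8_lc

theorem result : ∃ W : Set (Stream' (Fin 5)),
    (∃ k, GenMem W k) ∧ (∃ k, GenMem Wᶜ k) ∧ ∀ k, ¬ Mem W k Arena :=
  ⟨_, ⟨4, genP⟩, ⟨4, genA⟩, chr⟩

end Pool.Agent.Results.MP_4814b8_lc.Gap
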